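import Pool.Agent.E8helper65.PG.Main

/-!
# Cycle class maps for the schemes over finite fields generated by abelian varieties of dimension at
# most five, and by products of elliptic curves, abelian surfaces and threefolds, with descent, and for
# the complements of arbitrary closed subschemes

An abelian variety over the field with `p ^ a` elements is modelled by `RedAV` (Honda, Tate): a
finite product of CM types `(E i, Φ i)` with Weil numbers `π i ∈ E i` that satisfy the formula of
Shimura and Taniyama; its cohomology of degree `n`, with coefficients in an algebraically closed field
`Ω`, consists of the alternating `n`-forms on the Tate module `Ω ⊗ H_1`, on which the Frobenius
endomorphism acts by `π`.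

We consider (`IsGoodAVP`) the abelian varieties `Y` over finite fields of the following kinds:

* **all abelian varieties of dimension at most five**;
* the abelian varieties that are isogenous, over an algebraic closure, to a product of a supersingular
  abelian variety of any dimension and of abelian varieties of dimension at most three (any number, any
  multiplicity), such that any two factors of dimension three whose CM fields have the same Galois
  closure satisfy one of the following: their fields are Galois over `ℚ`; one of them is supersingular;
  they are isogenous; neither of them is ordinary and their `p`-ranks are not `{1, 2}`. So `Y` may be
  **any product of elliptic curves and abelian surfaces**, of any dimension.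

`Homology Ω V` are data of motivic homology `M X i j = H_i^M(X, ℚ(j))` (with `M X (2 i) i = CH_i(X)`)
and of `ℓ`-adic homology `E X i j = H_i(X, ℚ_ℓ(j))` (coefficients extended to `Ω`) of schemes `X` over
finite fields. Let `𝒢` (`GeneratedD`) be the smallest class of schemes that contains those with the
homology groups of the abelian varieties above, that is closed under direct summands of finite sums of
twists of motives, that contains all of a closed subscheme `Z` of `X`, `X` and `X ∖ Z` if it contains
two of them, and that contains `X` if it contains the base change of `X` to a finite extension of the
ground field.

**Theorem.** For all schemes `X` in `𝒢` - smooth or not, proper or not: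

* the cycle class maps of `X` are bijective (onto the invariants of Frobenius, after extension of
  scalars) for the cycles of all dimensions `i`, and the eigenvalue one of the Frobenius is
  semisimple;
* for an arbitrary closed subscheme `Z` of `X`, of dimension at most `d`, the same holds for the
  complement `U = X ∖ Z` and the cycles of dimension `i ≥ d`. Here `Z` has dimension at most `d` means
  that its homology vanishes in degrees above `2 d` and that the cycle class map is surjective in
  dimension `d`, with semisimple eigenvalue one (the homology of degree `2 d` is spanned by the
  classes of the irreducible components).

The result in the starting files, `ComplementsOfClosedSets`, is the case (without descent) where `Y`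
has only factors of an abelian variety `Z` of dimension at most five without exceptional pairs, or of
dimension at most three where two factors **of any dimension** whose fields have the same Galois closure
are isogenous, or have Galois fields, or one of them is supersingular. So now all products of elliptic
curves and abelian surfaces and all abelian varieties of dimension at most five are included, and
infinitely many classes in each dimension.

Properties of the theory of cycles that are used for the abelian varieties `Y` (`IsChowS`,
`IsMotivic`): Poincaré duality, the formal properties of correspondences, the nilpotence of
homologically trivial correspondences (Kimura), the operation of the Frobenius endomorphism on higher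
Chow groups, the vanishing of the higher rational `K`-groups of a finite field (Quillen), and the
algebraicity of the classes in `AlgS` (theorems of Tate, Markman and Ramón Marí). The passage from the
Tate conjecture to all degrees is due to Soulé, Geisser, Kahn and Jannsen.
-/

set_option autoImplicit false

namespace Pool.Agent.Results.MP_3af9db_ag.GeneratedSmallAbelianH65

open Pool.Agent.W495.TA Pool.Agent.W495.FM Pool.Agent.E8helper65.PG
  Pool.Agent.R937.PG

/-- Cycle class maps of the members of the class and of complements of closed subschemes. -/
theorem result (p : ℕ) [Fact p.Prime] (ν : PadicAlgCl p ≃+* ℂ) (Ω : Type) [Field Ω]
    [IsAlgClosed Ω] [CharZero Ω] (V : Type) (T : Homology Ω V) (hT : IsHomology T)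
    (hW : HasWeights T) (X : V) (hX : GeneratedD T (IsGoodAbelianP p ν T) X) :
    (∀ i, IsIso T X i) ∧ ∀ Z U d, IsTriple T Z X U →
      ((∀ n j, 2 * d < n → ∀ e : T.E Z n j, e = 0) ∧ IsOnto T Z d) → ∀ i, d ≤ i → IsIso T U i :=
  ⟨fun i => (tb_goodD hT hX).iso hT i, fun _ _ _ h hZ i hi =>
    iso_opened hT hW h (onto_of_dim hT hZ hi) ((tb_goodD hT hX).iso hT i)⟩

end Pool.Agent.Results.MP_3af9db_ag.GeneratedSmallAbelianH65
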