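import Pool.Agent.E8helper3.CH.Jan

/-!
# The cycle class maps of all varieties over finite fields and those of affine cubic hypersurfaces

`Thy F ι p` are the standard properties of the data `D X a b` of a separated scheme `X` of finite type
over the finite field `F`: the group `CH_b(X, a - 2b) ⊗ ℚ`, the spaces `H_a(X̄, ℚ_ℓ(b))` with the
Frobenius (`ℓ = p k`, `k ∈ ι`) and the cycle class maps; so `D X (2i) i` is the datum of `cl_i`.
`InJ True X` says that `X` carries an affine bundle with affine total space (this is true for all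
quasi-projective `X` by Jouanolou). `sng g` is the hypersurface `∑ yₖ gₖ(x) = 0` and `cub g` is the
hypersurface `∑ yₖ gₖ(x) = 1`, with the datum `coh g i j` of its groups `H^i(j)`; `zer g` is the
subscheme `g = 0` of the affine space.
-/

set_option autoImplicit false

open AlgebraicGeometry MvPolynomial
open Pool.Agent.R904.CU Pool.Agent.Y116.UV Pool.Agent.E8helper3.CH

namespace Pool.Agent.Results.MP_3af9db_ag.SingularCubicsH3

theorem result (F : Type) [Field F] [Finite F] (ι : Type) (p : ι → ℕ) [∀ k, Fact (p k).Prime]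
    (𝒯 : Thy F ι p) :
    -- the data of `X` and those of the hypersurfaces `∑ yₖ gₖ(x) = 0` and `∑ yₖ gₖ(x) = 1`
    (∀ X : Sch F, InJ True X → ∃ N m₀ : ℕ, ∀ m : ℕ, m₀ ≤ m →
      ∃ (κ : Type) (_ : Fintype κ) (g : κ → MvPolynomial (Fin (m + N)) F),
        (∀ k, (g k).totalDegree ≤ 2) ∧
        (∀ a b : ℤ, a ≠ 2 * m → a + 1 ≠ 2 * m → a + 2 ≠ 2 * m →
          Datum.Iso (𝒯.D (sng g) (a + 2 * (N + Fintype.card κ)) (b + (N + Fintype.card κ)))
            (Datum.prod (𝒯.D X a b) (𝒯.D X (a + 1) (b + 1)))) ∧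
        ∀ i j : ℤ, i ≠ 0 → i ≠ -1 →
          Datum.Iso (𝒯.coh g i j) (𝒯.D X (2 * m - 1 - i) (m - j))) ∧
    -- bijectivity of `cl_i` for all varieties, for the hypersurfaces `∑ yₖ gₖ(x) = 0`, and
    -- bijectivity of the maps `CH^j(H, 1) → H^{2j-1}(j)` for the hypersurfaces `∑ yₖ gₖ(x) = 1`
    ((∀ X : Sch F, InJ True X → ∀ i : ℤ, (𝒯.D X (2 * i) i).Bij) ↔
      ∀ (n : ℕ) (κ : Type) [Fintype κ] (g : κ → MvPolynomial (Fin n) F),
        (∀ k, (g k).totalDegree ≤ 2) → ∀ i : ℤ, (𝒯.D (sng g) (2 * i) i).Bij) ∧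
    ((∀ X : Sch F, InJ True X → ∀ i : ℤ, (𝒯.D X (2 * i) i).Bij) ↔
      ∀ (n : ℕ) (κ : Type) [Fintype κ] (g : κ → MvPolynomial (Fin n) F),
        (∀ k, (g k).totalDegree ≤ 2) → ∀ j : ℤ, 0 < j → (𝒯.coh g (2 * j - 1) j).Bij) ∧
    -- the same for all properties of the data that are invariant under isomorphisms and inherited
    -- by direct summands, and for all `CH(·, r)`
    (∀ Q : Datum ι p → Prop, Datum.Invariant Q → Datum.Summand Q → ∀ r : ℤ,
      (𝒯.AllR Q r ↔ 𝒯.SngR Q r) ∧ (𝒯.AllR Q r ↔ 𝒯.CubicsR Q (r + 1))) ∧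
    -- the individual varieties and cycles of a given dimension: each case of the question is the
    -- case of a cubic hypersurface
    ((∀ X : Sch F, FT True X → ∀ a b : ℤ, a < 2 * b → (𝒯.D X a b).Null) →
      ∀ X : Sch F, InJ True X → ∃ N m₀ : ℕ, ∀ m : ℕ, m₀ ≤ m →
      ∃ (κ : Type) (_ : Fintype κ) (g : κ → MvPolynomial (Fin (m + N)) F),
        (∀ k, (g k).totalDegree ≤ 2) ∧ ∀ i : ℤ, i < m - 1 →
          ((𝒯.D (sng g) (2 * (i + (N + Fintype.card κ))) (i + (N + Fintype.card κ))).Surj ↔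
            (𝒯.D X (2 * i) i).Surj) ∧
          ((𝒯.D (sng g) (2 * (i + (N + Fintype.card κ))) (i + (N + Fintype.card κ))).Inj ↔
            (𝒯.D X (2 * i) i).Inj) ∧
          ((𝒯.D (sng g) (2 * (i + (N + Fintype.card κ))) (i + (N + Fintype.card κ))).Semi ↔
            (𝒯.D X (2 * i) i).Semi)) := by
  have hsh : (∀ X : Sch F, InJ True X → ∀ i : ℤ, (𝒯.D X (2 * i) i).Bij) ↔
      𝒯.AllR Datum.Bij 0 := by
    unfold Thy.AllR
    simp only [add_zero]
  refine ⟨fun X hX => 𝒯.transfer_sng hX, ?_, ?_, fun Q hQ hs r => ⟨𝒯.sng_iff hQ hs r,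
    𝒯.shift hQ r⟩, fun hw X hX => 𝒯.sng_one hw hX⟩
  · rw [hsh, 𝒯.sng_iff Datum.invariant_bij Datum.summand_bij]
    unfold Thy.SngR
    simp only [add_zero]
  · rw [hsh, 𝒯.shift Datum.invariant_bij]
    unfold Thy.CubicsR
    rw [zero_add]
    constructor
    · intro h n κ _ g hg j hj
      exact h n κ g hg j (by omega)
    · intro h n κ _ g hg j hj
      exact h n κ g hg j (by omega)

end Pool.Agent.Results.MP_3af9db_ag.SingularCubicsH3
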