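import Mathlib
import Pool.Agent.E8helper65.RT.Iso
import Pool.Agent.E8helper65.RT.Pn

/-!
# The cycle class maps of the products of arbitrary varieties with abelian varieties of maximal angle
# rank, and so of almost all slope types of all CM fields

Let `K i` (`i` in a finite set) be CM fields, and let `π i` be Weil numbers for `q = p ^ a` that
generate the fields `K i`, such that the only multiplicative relations between the conjugates of the
`π i` and `q` are the trivial ones given by `π * conj π = q` (`MaximalAngleRank`). Let `A` be an
abelian variety over the field with `Q = q ^ s` elements which is isogenous to a product of powers of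
abelian varieties coming from the field with `q` elements, with characteristic polynomials of
Frobenius all of whose roots are conjugates of the `π i` (`IsPolyOf`; `A` is given by its Chow ring,
cohomology and correspondences, `IsAbelian`). Let `U` be **any** variety over the field with `Q`
elements, singular or not, proper or not, such that the Frobenius endomorphism of `U` satisfies, on
the `ℓ`-adic and on the motivic Borel-Moore homology of `A × U`, polynomials with rational
coefficients all of whose complex roots `ρ` are unrelated to the fields `K i` (`Unrelated`): a
function `n` on the complex embeddings of `K i` with `n (conj φ) = - n φ` which is invariant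
under all automorphisms of `ℂ` that fix a power of `ρ` is zero. (If `U` is stratified by varieties
whose motives are finite-dimensional in the sense of Kimura, for instance direct summands of motives
of products of curves, this is a condition on the Frobenius eigenvalues of these varieties. It holds if
a power of each `ρ` lies in a field linearly disjoint from the normal closures of the `K i`, or in a
totally real field. No form of the Tate or Beilinson conjecture is assumed for `U`.)

**Theorem.** For all `b`,

  **the cycle class map `cl_b : CH_b(A × U) ⊗ ℚ_ℓ → H_(2 b)(A × U, ℚ_ℓ(b))` is bijective onto the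
  Galois invariants if and only if the cycle class maps `cl_(b - l)` of `U`, `0 ≤ l ≤ dim A`, are
  bijective onto the Galois invariants.**

Moreover there are finitely many products `D t` of divisor classes on `A`, depending only on `A`, such
that the Kunneth formulas `CH_b(A × U) = ⨁ D t × CH_(b - dim A + c t)(U)` and the analogous formula for
the Galois invariants hold, also for the higher Chow groups. So the generalized Beilinson conjecture
holds for `A × U`, in all dimensions, if and only if it holds for `U`. (In the formal statement
Borel-Moore homology is graded cohomologically, see `BijectiveOnU` and `BijectiveOnAU`.)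

The second part of the theorem says that the angle rank is maximal for almost all slope types of all
CM fields, so that the theorem applies to them. We fix an isomorphism `ν` of the algebraic closure of
`ℚ_p` with `ℂ`. Let `K i` be pairwise independent CM fields of degree `2 g i` (for `i ≠ k` and all
complex embeddings `φ` of `K i` and `ψ` of `K k` some automorphism of `ℂ` is the identity on
`φ (K i)` and the complex conjugation on `ψ (K k)`), and let `M i` be a function with nonzero
integral values, all of which divide `n i`, on the complex embeddings of `K i`, invariant under
complex conjugation. A CM type `Φ i` of `K i`, `M i` and a real number `κ ≠ 0` prescribe the slopes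
`(a + κ M) / 2` (at the embeddings in `Φ i`) and `(a - κ M) / 2` (outside of `Φ i`) of a Weil number for
`p ^ a` in `K i` (`HasType`). There are `2 ^ (∑ i, g i)` families of CM types. A family is exceptional
(`exceptionalFamilies`) if the theorem above is false for some Weil numbers with these slope types.
The number of the exceptional families is at most
`2 ^ (∑ i, g i) * ∑ i, C * (n i) ^ 2 * rate (K i) (g i) (q i)`, with an absolute constant `C`. Here
`q i` is any prime factor of `g i` (or `q i = 1`), and `rate K g q` is `(1 + log (2 g)) ^ 16` times
the smaller of the numbers `W (K) / √g` and `√g / q`, where (third part, `WeightEstimate`)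
`W (K) ≤ N ^ 2 * D ^ (1 / 4)`; `N` is the number of the CM subfields of `K` and `D` is the largest
degree of a CM subfield of `K` that is normal over `ℚ` with a nonabelian Galois group.

The bound for the number of the types without maximal angle rank is in the starting files
(`Pool/Agent/Y1`). The method of proof of the Kunneth formula is the one of `Pool/Agent/Y156` in the
starting files, where the abelian varieties are the ones of almost all Weil polynomials and the
Frobenius eigenvalues of `U` generate a group of small rank. The proof: the nilpotence of
homologically trivial correspondences is used only for `A` (theorem of Kimura). A polynomial in the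
Frobenius endomorphism of `A` acts on the cohomology of `A` through the part generated by divisors, and
it is invertible on the Frobenius invariants, as there the Frobenius endomorphisms of `A` and `U` have
the product `Q ^ j`.
-/

set_option autoImplicit false

namespace Pool.Agent.Results.MP_3af9db_ag.TimesUnrelatedH65

open NumberField Module IntermediateField Polynomial Pool.Agent.H204R3.CM Pool.Agent.H977R3.CM
  Pool.Agent.TH170 Pool.Agent.Y1.KN Pool.Agent.Y1.CT Pool.Agent.Y1.TS Pool.Agent.Y137.MV
  Pool.Agent.E8helper65.RT

/-- The theorem on the maps `cl_b` holds for all abelian varieties `A` whose Frobenius eigenvalues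
are powers of conjugates of the Weil numbers `π i`, and all `U` unrelated to the fields `K i`. -/
def HoldsFor (p a : ℕ) {I : Type} (K : I → Type) [∀ i, Field (K i)] (π : ∀ i, K i) : Prop :=
  ∀ f : I → ℤ[X], (∀ i, IsPolyOf (π i) (f i)) → IsoTimes (Unrelated K) (p ^ a) f

/-- The exceptional families of CM types. -/
def exceptionalFamilies {p : ℕ} [Fact p.Prime] (ν : PadicAlgCl p ≃+* ℂ) {I : Type} [Fintype I]
    (K : I → Type) [∀ i, Field (K i)] [∀ i, NumberField (K i)] [∀ i, IsCMField (K i)]
    (M : ∀ i, (K i →+* ℂ) → ℤ) : Set (∀ i, Set (K i →+* ℂ)) :=
  {Φ | (∀ i, IsCMType (Φ i)) ∧ ¬ ForAllWeil ν K M (fun a π => HoldsFor p a K π) Φ}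

/-- **The cycle class map of `A × U` in dimension `b` is bijective if and only if the ones of `U` in the
dimensions `b - l`, `0 ≤ l ≤ dim A`, are bijective**, for the abelian varieties `A` of maximal angle
rank, hence of almost all slope types of all CM fields, and all unrelated `U`. -/
theorem result :
    (∀ (p : ℕ) [Fact p.Prime] (a : ℕ) (_ : 0 < a) (I : Type) [Fintype I] (K : I → Type)
      [∀ i, Field (K i)] [∀ i, NumberField (K i)] [∀ i, IsCMField (K i)] (π : ∀ i, K i),
      (∀ i, ℚ⟮π i⟯ = ⊤) → (∀ i, π i * IsCMField.complexConj (K i) (π i) = (p : K i) ^ a) →
      MaximalAngleRank (p ^ a) π → HoldsFor p a K π) ∧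
    (∃ C : ℝ, 0 ≤ C ∧ ∀ (p : ℕ) [Fact p.Prime] (ν : PadicAlgCl p ≃+* ℂ) (I : Type) [Fintype I]
      (K : I → Type) [∀ i, Field (K i)] [∀ i, NumberField (K i)] [∀ i, IsCMField (K i)]
      (M : ∀ i, (K i →+* ℂ) → ℤ) (n g q : I → ℕ), PairwiseIndep K →
      (∀ i φ, M i (ComplexEmbedding.conjugate φ) = M i φ) → (∀ i, n i ≠ 0) →
      (∀ i φ, M i φ ∣ (n i : ℤ)) → (∀ i, finrank ℚ (K i) = 2 * g i) →
      (∀ i, q i ∣ g i ∧ (q i = 1 ∨ (q i).Prime)) →
      ((exceptionalFamilies ν K M).ncard : ℝ) ≤
        2 ^ (∑ i, g i) * ∑ i, C * (n i : ℝ) ^ 2 * rate (K i) (g i) (q i)) ∧
    WeightEstimate := by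
  have key : ∀ (p : ℕ) [Fact p.Prime] (a : ℕ) (_ : 0 < a) (I : Type) [Fintype I] (K : I → Type)
      [∀ i, Field (K i)] [∀ i, NumberField (K i)] [∀ i, IsCMField (K i)] (π : ∀ i, K i),
      (∀ i, ℚ⟮π i⟯ = ⊤) → (∀ i, π i * IsCMField.complexConj (K i) (π i) = (p : K i) ^ a) →
      MaximalAngleRank (p ^ a) π → HoldsFor p a K π := by
    intro p _ a ha I _ K _ _ _ π _ hw hang f hf
    exact isoTimes (Nat.one_lt_pow ha.ne' (Fact.out : p.Prime).one_lt) (noRel_of_angle hang hw f hf)
      (unrelated_zero K)
  obtain ⟨C, hC0, hC⟩ := ncard_of_angle
  refine ⟨key, ⟨C, hC0, ?_⟩, weight_estimate_holds⟩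
  intro p _ ν I _ K _ _ _ M n g q hind hM hn hMn hg hq
  exact hC p ν I K M n g q hind hM hn hMn hg hq _ fun a π ha hgen hw hang =>
    key p a ha I K π hgen hw hang

end Pool.Agent.Results.MP_3af9db_ag.TimesUnrelatedH65
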