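import Pool.Agent.E8helper75.TB.Five
import Pool.Agent.Q193.LT.Mod
import Pool.Agent.R904.TR.Res

/-!
# The conjectures of Tate and Beilinson for varieties over finite fields and trilinear forms

`CycleTheory k ℓ` lists the properties which are used of motivic Borel-Moore homology
`H^M_a(X, ℚ(b)) = CH_b(X, a - 2b) ⊗ ℚ` (tensored with `ℚ_ℓ`), of the `ℓ`-adic étale homology
`H_a(X̄, ℚ_ℓ(b))` and of the cycle class maps between them, for separated schemes `X` of finite type over a finite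
field `k`. For `a = 2b = 2i` the cycle class map is the map `cl_i` of the problem.
-/

set_option autoImplicit false

open CategoryTheory CategoryTheory.Limits AlgebraicGeometry Pool.Agent.Y116.UV Pool.Agent.Z125.UN Pool.Agent.Q193.LT
open Pool.Agent.R904.CU Pool.Agent.R904.TR Pool.Agent.E8helper75.TB

namespace Pool.Agent.Results.MP_3af9db_ag.TrilinearHypersurfacesH75

/-- A long exact sequence `⋯ → A_a(Z) → A_a(X) → A_a(U) → A_{a-1}(Z) → ⋯` -/
structure Les {k : Type} [Field k] {K : Type} [Field K] (A : ℤ → Sch k → ModuleCat.{0} K)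
    (Z X U : Sch k) where
  /-- `A_a(Z) → A_a(X)` -/
  u : ∀ a, A a Z ⟶ A a X
  /-- `A_a(X) → A_a(U)` -/
  v : ∀ a, A a X ⟶ A a U
  /-- `A_a(U) → A_{a-1}(Z)` -/
  w : ∀ a, A a U ⟶ A (a - 1) Z
  exact_uv : ∀ a, ExactAt (u a) (v a)
  exact_vw : ∀ a, ExactAt (v a) (w a)
  exact_wu : ∀ a, ExactAt (w a) (u (a - 1))

/-- The maps `φ` are a morphism between two long exact sequences. -/
def Les.Comm {k : Type} [Field k] {K : Type} [Field K] {A B : ℤ → Sch k → ModuleCat.{0} K}
    {Z X U : Sch k} (φ : ∀ a X, A a X ⟶ B a X) (s : Les A Z X U) (s' : Les B Z X U) : Prop :=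
  ∀ a, φ a Z ≫ s'.u a = s.u a ≫ φ a X ∧ φ a X ≫ s'.v a = s.v a ≫ φ a U ∧
    φ a U ≫ s'.w a = s.w a ≫ φ (a - 1) Z

/-- The map `c` with the endomorphism `F` of its target is the direct sum of `(c₁, F₁)` and `(c₂, F₂)`. -/
def Splits {K : Type} [Field K] {M M₁ M₂ V V₁ V₂ : ModuleCat.{0} K} (c : M ⟶ V) (F : V ⟶ V)
    (c₁ : M₁ ⟶ V₁) (F₁ : V₁ ⟶ V₁) (c₂ : M₂ ⟶ V₂) (F₂ : V₂ ⟶ V₂) : Prop :=
  ∃ (e : M ≅ M₁ ⊞ M₂) (e' : V ≅ V₁ ⊞ V₂), c ≫ e'.hom = e.hom ≫ biprod.map c₁ c₂ ∧
    F ≫ e'.hom = e'.hom ≫ biprod.map F₁ F₂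

/-- `c` is an isomorphism onto the invariants of `F`. (Here `F (c m) = c m` for all `m`.) -/
def OntoInv {K : Type} [Field K] {M V : ModuleCat.{0} K} (F : V ⟶ V) (c : M ⟶ V) : Prop :=
  Function.Injective c.hom ∧ ∀ v, F.hom v = v → ∃ m, c.hom m = v

/-- `j` is an open immersion onto the open subscheme of `Spec A` where `f_1, ..., f_m` do not all vanish. -/
def IsLocus {k A : Type} [Field k] [CommRing A] [Algebra k A] {m : ℕ} (f : Fin m → A) {U : Sch k}
    (j : U ⟶ aff k A) : Prop :=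
  IsOpenImmersion j.left ∧ Set.range j.left = {x : PrimeSpectrum A | ∃ l, f l ∉ x.asIdeal}

/-- Motivic and `ℓ`-adic Borel-Moore homology of the schemes over `k`, and the cycle class maps. -/
structure CycleData (k : Type) [Field k] (ℓ : ℕ) [Fact ℓ.Prime] where
  /-- `CH_b(X, a - 2b) ⊗ ℚ_ℓ` -/
  M : ℤ → ℤ → Sch k → ModuleCat.{0} ℚ_[ℓ]
  /-- `H_a(X̄, ℚ_ℓ(b))` -/
  V : ℤ → ℤ → Sch k → ModuleCat.{0} ℚ_[ℓ]
  /-- Frobenius -/
  F : ∀ a b X, V a b X ⟶ V a b X
  /-- the cycle class maps -/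
  cl : ∀ a b X, M a b X ⟶ V a b X

namespace CycleData

variable {k : Type} [Field k] {ℓ : ℕ} [Fact ℓ.Prime] (T : CycleData k ℓ)

/-- The cycle class map for `X` in degree `(a, b)` and Frobenius are isomorphic to those for `Y` in degree
`(a', b')`. -/
def Same (a b : ℤ) (X : Sch k) (a' b' : ℤ) (Y : Sch k) : Prop :=
  ∃ (e : T.M a b X ≅ T.M a' b' Y) (e' : T.V a b X ≅ T.V a' b' Y),
    T.cl a b X ≫ e'.hom = e.hom ≫ T.cl a' b' Y ∧ T.F a b X ≫ e'.hom = e'.hom ≫ T.F a' b' Y

/-- Localization: for a closed subscheme `Z` of `X` with complement `U` there are long exact sequences for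
both theories, compatible with the cycle class maps and Frobenius. -/
def Localization : Prop :=
  ∀ {Z X U : Sch k} (i : Z ⟶ X) (j : U ⟶ X), FT True X → IsTriple i j → ∀ b : ℤ,
    ∃ (s : Les (fun a Y => T.M a b Y) Z X U) (s' : Les (fun a Y => T.V a b Y) Z X U),
      Les.Comm (fun a Y => T.cl a b Y) s s' ∧ Les.Comm (fun a Y => T.F a b Y) s' s'

/-- Affine bundles: let `U` be the open subscheme of `Spec A` where `f_1, ..., f_m` do not all vanish. The
affine scheme `t_1 f_1 + ... + t_m f_m = 1` is a bundle of affine spaces of dimension `m - 1` over `U`, and its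
cycle class maps are those of `U`, with a shift of `(a, b)` by `(2(m-1), m-1)`. -/
def Bundles : Prop :=
  ∀ (A : Type) [CommRing A] [Algebra k A] [Algebra.FiniteType k A] (m : ℕ) (f : Fin m → A)
    (U : Sch k) (j : U ⟶ aff k A), IsLocus f j → ∀ a b : ℤ,
    T.Same a b U (a + 2 * (m - 1)) (b + (m - 1)) (aff k (Jou f))

/-- `H_a(X × 𝔾_m, b) = H_{a-2}(X, b-1) ⊕ H_{a-1}(X, b)` for `X = Spec A`, for both theories, compatible with
the cycle class maps and Frobenius. -/
def Laurent : Prop :=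
  ∀ (A : Type) [CommRing A] [Algebra k A] [Algebra.FiniteType k A] (a b : ℤ),
    Splits (T.cl a b (aff k (LaurentPolynomial A))) (T.F a b (aff k (LaurentPolynomial A)))
      (T.cl (a - 2) (b - 1) (aff k A)) (T.F (a - 2) (b - 1) (aff k A))
      (T.cl (a - 1) b (aff k A)) (T.F (a - 1) b (aff k A))

/-- The conjectures of Tate and Beilinson, and semisimplicity, for `X` in all degrees `(a, b)`: the cycle class
map is injective and its image is the generalized eigenspace of Frobenius for the eigenvalue `1`. -/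
def TB (X : Sch k) : Prop := ∀ a b, Ident (T.F a b X).hom (T.cl a b X).hom

end CycleData

/-- Motivic and `ℓ`-adic Borel-Moore homology of the schemes over `k`, and the cycle class maps: the known
properties. -/
structure CycleTheory (k : Type) [Field k] (ℓ : ℕ) [Fact ℓ.Prime] extends CycleData k ℓ where
  /-- `H_a(X̄, ℚ_ℓ(b))` is a finite-dimensional space -/
  finite : ∀ a b X, FT True X → Module.Finite ℚ_[ℓ] (toCycleData.V a b X)
  /-- cycle classes are fixed by Frobenius -/
  cl_F : ∀ a b X, toCycleData.cl a b X ≫ toCycleData.F a b X = toCycleData.cl a b X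
  /-- the cycle class maps depend only on the isomorphism class of `X` -/
  iso : ∀ {X Y : Sch k}, FT True X → Nonempty (X ≅ Y) → ∀ a b, toCycleData.Same a b X a b Y
  /-- localization -/
  localization : toCycleData.Localization
  /-- homotopy invariance -/
  bundle : toCycleData.Bundles
  /-- the fundamental theorem -/
  laurent : toCycleData.Laurent
  /-- in dimension at most one all cycle class maps are isomorphisms onto the generalized eigenspaces of
  Frobenius for the eigenvalue `1` (Weil, Harder) -/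
  curves : ∀ X : Sch k, FT True X → topologicalKrullDim X.left ≤ 1 → toCycleData.TB X

namespace CycleTheory

variable {k : Type} [Field k] {ℓ : ℕ} [Fact ℓ.Prime] (T : CycleTheory k ℓ)

/-- The question for `X`: for all `i` the map `cl_i` is an isomorphism onto the Frobenius invariants. -/
def Jannsen (X : Sch k) : Prop := ∀ i : ℤ, OntoInv (T.F (2 * i) i X) (T.cl (2 * i) i X)

/-- `TB` for the smooth separated schemes of dimension at most `d`. -/
def SmoothDim (d : ℕ) : Prop :=
  ∀ X : Sch k, FT True X → Smooth X.hom → topologicalKrullDim X.left ≤ d → T.TB X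

/-- `TB` for all separated schemes of finite type of dimension at most `d`. -/
def AllDim (d : ℕ) : Prop := ∀ X : Sch k, FT True X → topologicalKrullDim X.left ≤ d → T.TB X

/-- The assertion of the problem for all varieties of dimension at most `d`. -/
def JannsenDim (d : ℕ) : Prop :=
  ∀ X : Sch k, FT True X → topologicalKrullDim X.left ≤ d → T.Jannsen X

/-- `TB` for the hypersurfaces `G(x, y, z) = 1`, where `G` is a trilinear form over `k` in three blocks of
variables, one of which has at most `e` variables. -/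
def Block (e : ℕ) : Prop := ∀ (a b c : ℕ) (G : Fin a → Fin b → Fin c → k),
  (a ≤ e ∨ b ≤ e ∨ c ≤ e) → T.TB (hypS G)

/-- `TB` for the hypersurfaces `G(x, y, z) = 1`, where all coefficients of `G` are `0` or `1`. -/
def ZeroOne : Prop := ∀ (a b c : ℕ) (G : Fin a → Fin b → Fin c → k),
  (∀ i j l, G i j l = 0 ∨ G i j l = 1) → T.TB (hypS G)

lemma app {A B C D : ModuleCat.{0} ℚ_[ℓ]} {f : A ⟶ B} {g : B ⟶ D} {f' : A ⟶ C} {g' : C ⟶ D}
    (h : f ≫ g = f' ≫ g') (x : A) : g.hom (f.hom x) = g'.hom (f'.hom x) := by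
  have := congrArg (fun t => t.hom x) h
  exact this

lemma fix (a b : ℤ) (X : Sch k) (m : T.M a b X) :
    (T.F a b X).hom ((T.cl a b X).hom m) = (T.cl a b X).hom m := by
  have := congrArg (fun t => t.hom m) (T.cl_F a b X)
  exact this

lemma ft_closed {Z X : Sch k} (i : Z ⟶ X) (hX : FT True X) (hi : IsClosedImmersion i.left) :
    FT True Z := by
  have hw : i.left ≫ X.hom = Z.hom := Over.w i
  have h1 := hX.locallyOfFiniteType
  have h2 := hX.quasiCompact
  have h3 := hX.separated trivial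
  constructor
  · rw [← hw]
    infer_instance
  · rw [← hw]
    infer_instance
  · intro _
    rw [← hw]
    infer_instance

/-- transport along isomorphisms of the cycle class maps -/
lemma ident_iso {M M' V V' : Type} [AddCommGroup M] [Module ℚ_[ℓ] M] [AddCommGroup M']
    [Module ℚ_[ℓ] M'] [AddCommGroup V] [Module ℚ_[ℓ] V] [AddCommGroup V'] [Module ℚ_[ℓ] V']
    {F : V →ₗ[ℚ_[ℓ]] V} {F' : V' →ₗ[ℚ_[ℓ]] V'} {c : M →ₗ[ℚ_[ℓ]] V} {c' : M' →ₗ[ℚ_[ℓ]] V'}
    (e : M ≃ₗ[ℚ_[ℓ]] M') (e' : V ≃ₗ[ℚ_[ℓ]] V') (hc : ∀ m, e' (c m) = c' (e m))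
    (hF : ∀ v, e' (F v) = F' (e' v)) (h : Ident F c) : Ident F' c' := by
  constructor
  · intro x y hxy
    have h1 : c (e.symm x) = c (e.symm y) := by
      apply e'.injective
      rw [hc, hc, e.apply_symm_apply, e.apply_symm_apply, hxy]
    have h2 := h.1 h1
    exact e.symm.injective h2
  · intro v n hv
    have h1 : ((F - 1) ^ n) (e'.symm v) = 0 := by
      apply e'.injective
      have h2 := pow_comm (F := F) (G := F') (w := (e' : V →ₗ[ℚ_[ℓ]] V')) (fun v => hF v) n
        (e'.symm v)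
      change e' (((F - 1) ^ n) (e'.symm v)) = ((F' - 1) ^ n) (e' (e'.symm v)) at h2
      rw [h2, e'.apply_symm_apply, hv, map_zero]
    obtain ⟨m, hm⟩ := h.2 _ n h1
    refine ⟨e m, ?_⟩
    rw [← hc, hm, e'.apply_symm_apply]

lemma ident_iff {A B C D : ModuleCat.{0} ℚ_[ℓ]} {F : B ⟶ B} {G : D ⟶ D} {c : A ⟶ B} {c' : C ⟶ D}
    (e : A ≅ C) (e' : B ≅ D) (hc : c ≫ e'.hom = e.hom ≫ c') (hF : F ≫ e'.hom = e'.hom ≫ G) :
    Ident F.hom c.hom ↔ Ident G.hom c'.hom := by
  have h1 : ∀ m, e'.toLinearEquiv (c.hom m) = c'.hom (e.toLinearEquiv m) := fun m => app hc m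
  have h2 : ∀ v, e'.toLinearEquiv (F.hom v) = G.hom (e'.toLinearEquiv v) := fun v => app hF v
  constructor
  · exact ident_iso e.toLinearEquiv e'.toLinearEquiv h1 h2
  · refine ident_iso e.toLinearEquiv.symm e'.toLinearEquiv.symm ?_ ?_
    · intro m
      rw [LinearEquiv.symm_apply_eq, h1, LinearEquiv.apply_symm_apply]
    · intro v
      rw [LinearEquiv.symm_apply_eq, h2, LinearEquiv.apply_symm_apply]

lemma tb_iso {X Y : Sch k} (hX : FT True X) (h : Nonempty (X ≅ Y)) (hT : T.TB X) : T.TB Y := by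
  intro a b
  obtain ⟨e, e', h1, h2⟩ := T.iso hX h a b
  exact (ident_iff e e' h1 h2).mp (hT a b)

section loc

variable {Z X U : Sch k} (i : Z ⟶ X) (j : U ⟶ X) (hX : FT True X) (ht : IsTriple i j)

include hX ht

lemma tb_total (hZ : T.TB Z) (hU : T.TB U) : T.TB X := by
  intro a' b
  obtain ⟨a, rfl⟩ : ∃ a, a' = a - 1 := ⟨a' + 1, by ring⟩
  obtain ⟨s, s', c, f⟩ := T.localization i j hX ht b
  have hZf := ft_closed i hX ht.closed
  have f1 := T.finite a b X hX
  have f2 := T.finite (a - 1) b Z hZf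
  have f3 : Module.Finite ℚ_[ℓ] (T.V a b U) := serre_exact serre_finite (s'.exact_vw a) f1 f2
  exact five (app (c a).2.2) (app (c (a - 1)).1) (app (c (a - 1)).2.1) (app (c (a - 1)).2.2)
    (s.exact_wu a) (s.exact_uv _) (s.exact_vw _) (s'.exact_wu a) (s'.exact_uv _) (s'.exact_vw _)
    (lifts_of_finite (app (f a).2.2)) (lifts_of_finite (app (f (a - 1)).1))
    (app (f (a - 1)).2.1) (T.fix _ _ _) (T.fix _ _ _) (hU _ _) (hZ _ _) (hU _ _) (hZ _ _)

lemma tb_opened (hZ : T.TB Z) (hX' : T.TB X) : T.TB U := by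
  intro a b
  obtain ⟨s, s', c, f⟩ := T.localization i j hX ht b
  have hZf := ft_closed i hX ht.closed
  have f1 := T.finite a b X hX
  have f2 := T.finite a b Z hZf
  exact five (app (c a).1) (app (c a).2.1) (app (c a).2.2) (app (c (a - 1)).1)
    (s.exact_uv a) (s.exact_vw a) (s.exact_wu a) (s'.exact_uv a) (s'.exact_vw a) (s'.exact_wu a)
    (lifts_of_finite (app (f a).1)) (lifts_of_finite (app (f a).2.1))
    (app (f a).2.2) (T.fix _ _ _) (T.fix _ _ _) (hZ _ _) (hX' _ _) (hZ _ _) (hX' _ _)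

lemma tb_closed (hX' : T.TB X) (hU : T.TB U) : T.TB Z := by
  intro a' b
  obtain ⟨a, rfl⟩ : ∃ a, a' = a - 1 := ⟨a' + 1, by ring⟩
  obtain ⟨s, s', c, f⟩ := T.localization i j hX ht b
  have hZf := ft_closed i hX ht.closed
  have f1 := T.finite a b X hX
  have f2 := T.finite (a - 1) b Z hZf
  have f3 : Module.Finite ℚ_[ℓ] (T.V a b U) := serre_exact serre_finite (s'.exact_vw a) f1 f2
  exact five (app (c a).2.1) (app (c a).2.2) (app (c (a - 1)).1) (app (c (a - 1)).2.1)
    (s.exact_vw a) (s.exact_wu a) (s.exact_uv _) (s'.exact_vw a) (s'.exact_wu a) (s'.exact_uv _)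
    (lifts_of_finite (app (f a).2.1)) (lifts_of_finite (app (f a).2.2))
    (app (f (a - 1)).1) (T.fix _ _ _) (T.fix _ _ _) (hX' _ _) (hU _ _) (hX' _ _) (hU _ _)

end loc

lemma tb_bundle {A : Type} [CommRing A] [Algebra k A] [Algebra.FiniteType k A] {m : ℕ}
    (f : Fin m → A) (U : Sch k) (j : U ⟶ aff k A) (hj : IsOpenImmersion j.left)
    (hr : Set.range j.left = {x : PrimeSpectrum A | ∃ l, f l ∉ x.asIdeal}) :
    T.TB U ↔ T.TB (aff k (Jou f)) := by
  constructor
  · intro h a' b'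
    obtain ⟨a, rfl⟩ : ∃ a, a' = a + 2 * ((m : ℤ) - 1) := ⟨a' - 2 * ((m : ℤ) - 1), by ring⟩
    obtain ⟨b, rfl⟩ : ∃ b, b' = b + ((m : ℤ) - 1) := ⟨b' - ((m : ℤ) - 1), by ring⟩
    obtain ⟨e, e', h1, h2⟩ := T.bundle A m f U j ⟨hj, hr⟩ a b
    exact (ident_iff e e' h1 h2).mp (h a b)
  · intro h a b
    obtain ⟨e, e', h1, h2⟩ := T.bundle A m f U j ⟨hj, hr⟩ a b
    exact (ident_iff e e' h1 h2).mpr (h _ _)

/-- direct factors -/
lemma ident_factor {A B C D : ModuleCat.{0} ℚ_[ℓ]} {F : B ⟶ B} {G : D ⟶ D} {c : A ⟶ B} {c' : C ⟶ D}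
    (s : A ⟶ C) (r : C ⟶ A) (s' : B ⟶ D) (r' : D ⟶ B) (h1 : s ≫ r = 𝟙 A) (h2 : s' ≫ r' = 𝟙 B)
    (h3 : c ≫ s' = s ≫ c') (h4 : r ≫ c = c' ≫ r') (h5 : F ≫ s' = s' ≫ G)
    (h : Ident G.hom c'.hom) : Ident F.hom c.hom := by
  have k1 : ∀ x, r.hom (s.hom x) = x := fun x => congrArg (fun t => t.hom x) h1
  have k2 : ∀ x, r'.hom (s'.hom x) = x := fun x => congrArg (fun t => t.hom x) h2
  constructor
  · intro x y hxy
    have h6 : s.hom x = s.hom y := by
      apply h.1
      have e1 : s'.hom (c.hom x) = c'.hom (s.hom x) := app h3 x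
      have e2 : s'.hom (c.hom y) = c'.hom (s.hom y) := app h3 y
      rw [← e1, ← e2, hxy]
    rw [← k1 x, ← k1 y, h6]
  · intro v n hv
    have h6 : ∀ v, s'.hom (F.hom v) = G.hom (s'.hom v) := fun v => app h5 v
    have h7 : ((G.hom - 1) ^ n) (s'.hom v) = 0 := by
      rw [← pow_comm h6, hv, map_zero]
    obtain ⟨m, hm⟩ := h.2 _ n h7
    refine ⟨r.hom m, ?_⟩
    have e1 : c.hom (r.hom m) = r'.hom (c'.hom m) := app h4 m
    rw [e1, hm, k2]

lemma tb_torus {A : Type} [CommRing A] [Algebra k A] [Algebra.FiniteType k A]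
    (h : T.TB (aff k (LaurentPolynomial A))) : T.TB (aff k A) := by
  intro a' b
  obtain ⟨a, rfl⟩ : ∃ a, a' = a - 1 := ⟨a' + 1, by ring⟩
  obtain ⟨e, e', h1, h2⟩ := T.laurent A a b
  refine ident_factor (biprod.inr ≫ e.inv) (e.hom ≫ biprod.snd) (biprod.inr ≫ e'.inv)
    (e'.hom ≫ biprod.snd) (by simp) (by simp) ?_ ?_ ?_ (h a b)
  · have h3 : e.inv ≫ T.cl a b (aff k (LaurentPolynomial A)) =
        biprod.map (T.cl (a - 2) (b - 1) (aff k A)) (T.cl (a - 1) b (aff k A)) ≫ e'.inv := by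
      rw [Iso.inv_comp_eq, ← Category.assoc, ← h1, Category.assoc, Iso.hom_inv_id, Category.comp_id]
    rw [Category.assoc, h3, ← Category.assoc, ← Category.assoc, biprod.inr_map]
  · rw [← Category.assoc, h1, Category.assoc, Category.assoc, biprod.map_snd]
  · have h3 : e'.inv ≫ T.F a b (aff k (LaurentPolynomial A)) =
        biprod.map (T.F (a - 2) (b - 1) (aff k A)) (T.F (a - 1) b (aff k A)) ≫ e'.inv := by
      rw [Iso.inv_comp_eq, ← Category.assoc, ← h2, Category.assoc, Iso.hom_inv_id, Category.comp_id]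
    rw [Category.assoc, h3, ← Category.assoc, ← Category.assoc, biprod.inr_map]

lemma tb_field : T.TB (aff k k) := by
  intro a b
  refine T.curves _ (ft_aff True) ?_ a b
  rw [topDim_aff, ringKrullDim_eq_zero_of_field]
  exact zero_le_one

lemma bnd : Bnd True T.TB where
  iso hX h hT := T.tb_iso hX h hT
  total i j hX ht hZ hU := T.tb_total i j hX ht hZ hU
  opened i j hX ht hZ hX' := T.tb_opened i j hX ht hZ hX'
  closed i j hX ht hX' hU := T.tb_closed i j hX ht hX' hU
  space n := T.tb_iso (ft_aff True) ⟨(affIso (jouOne k n)).symm⟩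
    ((T.tb_bundle (f1 k n) (aff k k) (𝟙 _) inferInstance (range_id n)).mp T.tb_field)
  jouanolou _ _ _ _ _ f U j hj hr h := (T.tb_bundle f U j hj hr).mpr h
  torus _ _ _ _ h := T.tb_torus h
  bundle _ _ _ _ _ f U j hj hr h := (T.tb_bundle f U j hj hr).mp h

lemma jannsen_of_tb {X : Sch k} (h : T.TB X) : T.Jannsen X := by
  intro i
  refine ⟨(h _ _).1, fun v hv => (h _ _).2 v 1 ?_⟩
  rw [pow_one, LinearMap.sub_apply, hv]
  simp

end CycleTheory

/-- Let `k` be a finite field. (1) For every `d`, the conjectures of Tate and Beilinson with semisimplicity, in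
all degrees, for all smooth schemes of dimension at most `d`, for all schemes of dimension at most `d`, and for
the smooth hypersurfaces `G(x, y, z) = 1` with a block of at most `d + 2` variables are equivalent; and they
imply that all maps `cl_i` are isomorphisms, for all varieties of dimension at most `d`. (2) They are true for
all hypersurfaces `G(x, y, z) = 1` with a block of at most three variables. (3) If `k` is a prime field, then
they are true for all schemes if and only if they are true for the `G(x, y, z) = 1` with coefficients `0` and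
`1`. (4) The hypersurfaces `G(x, y, z) = 1` are smooth. -/
theorem result (k : Type) [Field k] [Finite k] (ℓ : ℕ) [Fact ℓ.Prime] (T : CycleTheory k ℓ) :
    (∀ d : ℕ, (T.SmoothDim d ↔ T.Block (d + 2)) ∧ (T.AllDim d ↔ T.Block (d + 2)) ∧
      (T.Block (d + 2) → T.JannsenDim d)) ∧
    T.Block 3 ∧
    (Function.Surjective (Int.cast : ℤ → k) → ((∀ X : Sch k, FT True X → T.TB X) ↔ T.ZeroOne)) ∧
    ∀ (a b c : ℕ) (G : Fin a → Fin b → Fin c → k), Smooth (hypS G).hom := by
  have hB := T.bnd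
  have h1 : ∀ d : ℕ, T.SmoothDim d ↔ T.Block (d + 2) := fun d => smooth_iff hB d
  have h2 : ∀ d : ℕ, T.AllDim d ↔ T.Block (d + 2) := fun d => dim_iff hB d
  refine ⟨fun d => ⟨h1 d, h2 d, fun h X hX hd => T.jannsen_of_tb ((h2 d).mpr h X hX hd)⟩, ?_,
    fun hk => ⟨fun h a b c G _ => h _ (ft_aff True), fun h X hX => ?_⟩, fun a b c G => ?_⟩
  · refine (h2 1).mp fun X hX hd => T.curves X hX ?_
    exact_mod_cast hd
  · exact universal hB.toUni (S := {0, 1}) (Or.inl rfl) (Or.inr rfl)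
      (fun a b c G hG => h a b c G fun i j l => hG i j l) (presents_zero_one hk) X hX
  · exact smooth_aff (hyp_smooth G)

end Pool.Agent.Results.MP_3af9db_ag.TrilinearHypersurfacesH75
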